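import Mathlib
import Pool.Agent.MP_081e4c_co.AB.Main

open Pool.Agent.MP_081e4c_co

/-- Among the instances of size `2 ^ k` that are invariant under a regular action of an abelian
group, the largest number of stable matchings is the Irving-Leather number. -/
theorem Pool.Agent.Results.MP_081e4c_co.AbelianSymmetry.result (k : ℕ) :
    IsGreatest {N : ℤ | ∃ pm pw : Fin (2 ^ k) → Equiv.Perm (Fin (2 ^ k)),
      AbelianSymmetric pm pw ∧
        N = Nat.card {M : Equiv.Perm (Fin (2 ^ k)) // IsStable pm pw M}} (il k) :=
  AB.main k
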