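import Mathlib
import Pool.Agent.MP_081e4c_co.T4.Main

open Pool.Agent.MP_081e4c_co

/-- If every man has at most four stable partners, an instance of size `n` has at most
`10 ^ (n / 4)` stable matchings, and this is attained whenever `4 ∣ n`. -/
theorem Pool.Agent.Results.MP_081e4c_co.FourPartners.result (n : ℕ) :
    (∀ pm pw : Fin n → Equiv.Perm (Fin n), MenFourPartners pm pw →
      Nat.card {M : Equiv.Perm (Fin n) // IsStable pm pw M} ^ 4 ≤ 10 ^ n) ∧
    (4 ∣ n → ∃ pm pw : Fin n → Equiv.Perm (Fin n), MenFourPartners pm pw ∧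
      Nat.card {M : Equiv.Perm (Fin n) // IsStable pm pw M} ^ 4 = 10 ^ n) :=
  T4.sharp n
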