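import Mathlib
import Pool.Agent.MP_081e4c_co.OC.Main

open Pool.Agent.MP_081e4c_co

/-- Every stable marriage instance of size `n` has at most `2.86 ^ n` stable matchings. -/
theorem Pool.Agent.Results.MP_081e4c_co.Occupancy.result (n : ℕ)
    (pm pw : Fin n → Equiv.Perm (Fin n)) :
    (Nat.card {M : Equiv.Perm (Fin n) // IsStable pm pw M} : ℝ) ≤ (143 / 50) ^ n :=
  OC.card_stable pm pw
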