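import Mathlib
import Pool.Agent.MP_081e4c_co.T3.Fin

open Pool.Agent.MP_081e4c_co

/-- Among the stable marriage instances of size `n` in which every person has at most three stable
partners, the largest number of stable matchings is `best n`. -/
theorem Pool.Agent.Results.MP_081e4c_co.ThreePartners.result (n : ℕ) :
    IsGreatest {c : ℕ | ∃ pm pw : Fin n → Equiv.Perm (Fin n), ThreePartners pm pw ∧
      c = Nat.card {M : Equiv.Perm (Fin n) // IsStable pm pw M}} (best n) :=
  T3.exact_max n
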